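import Pool.Agent.L5helper21.AF.Disc

/-!
# The discriminant exponent of the associated form is one

For all `n ≥ 2` and `d ≥ 3` the product of the discriminant and the associated form extends to a
morphism on the space of all forms of degree `d` in `n` variables: `p (n, d) = 1`.

Sketch. The polynomials `D` such that `D Φ` is polynomial form an ideal. By Cramer's rule in the
degree of the socle it contains the determinants of the matrices whose rows are forms
`∑ g_i f_i + r Hess (f)`; there is one which does not vanish at a given nondegenerate form, so that
the smallest power of the discriminant in this ideal exists. If it were at least two, the square of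
the discriminant would divide all elements of the ideal. But one of these determinants vanishes
only simply at the parameter `c = n ^ (1 - d)` of the family `∑ X_i ^ d - c (∑ X_i) ^ d`, whose
member for this parameter is singular at `(1, …, 1)`; this uses a maximum principle for this
parameter and the values of the Lagrange interpolation for the other parameters.
-/

set_option autoImplicit false

open MvPolynomial

namespace Pool.Agent.Results.MP_2a8a61_ag.DiscriminantExponentOne

open Pool.Agent.L5helper21.AF

/-- For `n ≥ 2` and `d ≥ 3` every nondegenerate form has exactly one associated form, there is a
discriminant, and the smallest positive integer `p` such that `Δ ^ p Φ` extends to a morphism is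
one. -/
theorem result (n d : ℕ) (hn : 2 ≤ n) (hd : 3 ≤ d) :
    (∀ f : MvPolynomial (Fin n) ℂ, f.IsHomogeneous d → IsNondeg f →
      ∃! F, IsAssociatedForm n d f F) ∧
    (∃ Δ, IsDiscriminant n d Δ) ∧
    ∀ Δ, IsDiscriminant n d Δ → IsLeast {p : ℕ | 0 < p ∧ Extends n d Δ p} 1 :=
  ⟨fun _ hf hs => existsUnique_assoc (by omega) hf hs, exists_disc hn hd,
    fun _ hΔ => isLeast_one hn hd hΔ⟩

end Pool.Agent.Results.MP_2a8a61_ag.DiscriminantExponentOne
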